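import Pool.Agent.Q169.AA.Rn

/-!
# Asymptotically affine maps: one smoothing step in a ball
-/

set_option autoImplicit false

open Set Filter Topology Metric Function MeasureTheory
open scoped Manifold ContDiff

noncomputable section

namespace Pool.Agent.Q169.AA

open Pool.Agent.Y522 Pool.Agent.Y207.SH3

variable {n : ℕ}

/-- uniformity near a compact set -/
theorem aff_unif {G : E n → E n} {K : Set (E n)} (hK : IsCompact K) (h : ∀ z ∈ K, AAn n G z)
    {C : ℝ} (hC : 1 ≤ C) : ∃ r : ℝ, 0 < r ∧ ∀ p ∈ K, ∀ s : ℝ, 0 < s → s ≤ r →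
      ∃ c : ℝ, 0 < c ∧ Aff n G c (c / (2 * C)) p s := by
  refine hK.induction_on (p := fun S => ∃ r : ℝ, 0 < r ∧ ∀ p ∈ S, ∀ s : ℝ, 0 < s → s ≤ r →
      ∃ c : ℝ, 0 < c ∧ Aff n G c (c / (2 * C)) p s) ?_ ?_ ?_ ?_
  · exact ⟨1, one_pos, fun p hp => absurd hp (notMem_empty p)⟩
  · rintro s t hst ⟨r, hr, h1⟩
    exact ⟨r, hr, fun p hp => h1 p (hst hp)⟩
  · rintro s t ⟨r, hr, h1⟩ ⟨r', hr', h2⟩
    refine ⟨min r r', lt_min hr hr', fun p hp u hu hur => ?_⟩
    rcases hp with hp | hp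
    · exact h1 p hp u hu (hur.trans (min_le_left _ _))
    · exact h2 p hp u hu (hur.trans (min_le_right _ _))
  · intro z hz
    obtain ⟨c, hc, h1⟩ := h z hz
    obtain ⟨r, hr, h2⟩ := h1 (c / (2 * C)) (by positivity)
    refine ⟨closedBall z r, mem_nhdsWithin_of_mem_nhds (closedBall_mem_nhds z hr), r, hr,
      fun p hp s hs hsr => ⟨c, hc, h2 p ?_ s hs hsr⟩⟩
    rwa [mem_closedBall, dist_eq_norm] at hp

theorem box (G : E n → E n) (hG : ContinuousOn G (closedBall 0 2))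
    (hGi : InjOn G (closedBall 0 2)) (hA : ∀ z ∈ closedBall (0 : E n) 2, AAn n G z)
    (e : ℝ) (he : 0 < e) : ∃ δ : E n → ℝ, ContDiff ℝ ∞ δ ∧ (∀ z, 0 ≤ δ z) ∧ (∀ z, δ z ≤ 1 / 4) ∧
      (∀ z, 1 ≤ ‖z‖ → δ z = 0) ∧ (∀ z, ‖z‖ < 1 → 0 < δ z) ∧
      (∀ y z, |δ y - δ z| ≤ ‖y - z‖ / 4) ∧ (∀ z, ‖z‖ ≤ 3 / 2 → ‖Moll n G δ z - G z‖ ≤ e) ∧
      InjOn (Moll n G δ) (closedBall 0 (3 / 2)) ∧ ∀ z, 0 < δ z → LD n (Moll n G δ) z := by
  obtain ⟨C, hC, hM⟩ := moll_aff n
  obtain ⟨r0, hr0, hr⟩ := aff_unif (isCompact_closedBall (0 : E n) (3 / 2))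
    (fun z hz => hA z (closedBall_subset_closedBall (by norm_num) hz)) hC
  obtain ⟨r, hrp, hrr, hr1⟩ : ∃ r : ℝ, 0 < r ∧ r ≤ r0 ∧ r ≤ 1 / 4 :=
    ⟨min r0 (1 / 4), lt_min hr0 (by norm_num), min_le_left _ _, min_le_right _ _⟩
  -- separation
  obtain ⟨η, hη, hsep⟩ : ∃ η : ℝ, 0 < η ∧ ∀ p q : E n, ‖p‖ ≤ 3 / 2 → ‖q‖ ≤ 3 / 2 →
      r / 4 ≤ ‖q - p‖ → η ≤ ‖G q - G p‖ := by
    obtain ⟨S, hS⟩ : ∃ S : Set (E n × E n), S = (closedBall (0 : E n) (3 / 2) ×ˢ
      closedBall (0 : E n) (3 / 2)) ∩ {w | r / 4 ≤ ‖w.2 - w.1‖} := ⟨_, rfl⟩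
    have hSc : IsCompact S := by
      rw [hS]
      apply ((isCompact_closedBall (0 : E n) (3 / 2)).prod
        (isCompact_closedBall (0 : E n) (3 / 2))).inter_right
      exact isClosed_le continuous_const (by fun_prop)
    rcases S.eq_empty_or_nonempty with h0 | h0
    · refine ⟨1, one_pos, fun p q hp hq hpq => ?_⟩
      exfalso
      have : (p, q) ∈ S := by
        rw [hS]
        exact ⟨⟨by rwa [mem_closedBall_zero_iff], by rwa [mem_closedBall_zero_iff]⟩, hpq⟩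
      rw [h0] at this
      exact this
    · have hsub : closedBall (0 : E n) (3 / 2) ⊆ closedBall (0 : E n) 2 :=
        closedBall_subset_closedBall (by norm_num)
      have hcont : ContinuousOn (fun w : E n × E n => ‖G w.2 - G w.1‖) S := by
        have h1 : ContinuousOn (fun w : E n × E n => G w.2) S :=
          (hG.mono hsub).comp continuous_snd.continuousOn (fun w hw => by
            rw [hS] at hw
            exact hw.1.2)
        have h2 : ContinuousOn (fun w : E n × E n => G w.1) S :=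
          (hG.mono hsub).comp continuous_fst.continuousOn (fun w hw => by
            rw [hS] at hw
            exact hw.1.1)
        exact (h1.sub h2).norm
      obtain ⟨w, hw, hmin⟩ := hSc.exists_isMinOn h0 hcont
      have hw' := hw
      rw [hS] at hw'
      refine ⟨‖G w.2 - G w.1‖, ?_, fun p q hp hq hpq => ?_⟩
      · rw [norm_pos_iff, sub_ne_zero]
        intro h3
        have h4 : w.2 = w.1 := hGi (hsub hw'.1.2) (hsub hw'.1.1) h3
        have h5 : r / 4 ≤ ‖w.2 - w.1‖ := hw'.2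
        rw [h4, sub_self, norm_zero] at h5
        linarith
      · have h6 : (p, q) ∈ S := by
          rw [hS]
          exact ⟨⟨by rwa [mem_closedBall_zero_iff], by rwa [mem_closedBall_zero_iff]⟩, hpq⟩
        exact isMinOn_iff.1 hmin (p, q) h6
  obtain ⟨e', he', hee, heη⟩ : ∃ e' : ℝ, 0 < e' ∧ e' ≤ e ∧ e' ≤ η / 3 :=
    ⟨min e (η / 3), lt_min he (by linarith), min_le_left _ _, min_le_right _ _⟩
  obtain ⟨d, hd, hGu⟩ : ∃ d : ℝ, 0 < d ∧ ∀ x ∈ closedBall (0 : E n) 2, ∀ y ∈ closedBall (0 : E n) 2,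
      ‖x - y‖ < d → ‖G x - G y‖ < e' := by
    have h1 := (isCompact_closedBall (0 : E n) 2).uniformContinuousOn_of_continuous hG
    obtain ⟨δ, hδ, h2⟩ := Metric.uniformContinuousOn_iff.1 h1 e' he'
    refine ⟨δ, hδ, fun x hx y hy hxy => ?_⟩
    have := h2 x hx y hy (by rwa [dist_eq_norm])
    rwa [dist_eq_norm] at this
  -- the bump function
  obtain ⟨χ, hχ⟩ : ∃ χ : E n → ℝ, χ = fun z => bmp n z := ⟨_, rfl⟩
  have hχs : ContDiff ℝ ∞ χ := by
    rw [hχ]
    exact (bmp n).contDiff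
  have hχ0 : ∀ z, 0 ≤ χ z := by
    intro z
    rw [hχ]
    exact (bmp n).nonneg
  have hχ1 : ∀ z, χ z ≤ 1 := by
    intro z
    rw [hχ]
    exact (bmp n).le_one
  have hχz : ∀ z, 1 ≤ ‖z‖ → χ z = 0 := by
    intro z hz
    rw [hχ]
    exact (bmp n).zero_of_le_dist (by rw [dist_zero_right]; exact hz)
  have hχp : ∀ z, ‖z‖ < 1 → 0 < χ z := by
    intro z hz
    rw [hχ]
    exact (bmp n).pos_of_mem_ball (by rw [mem_ball_zero_iff]; exact hz)
  obtain ⟨K, hK⟩ : ∃ K : NNReal, LipschitzWith K χ := by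
    refine hχs.lipschitzWith_of_hasCompactSupport ?_ (by simp)
    rw [hχ]
    exact (bmp n).hasCompactSupport
  have hKp : (0 : ℝ) < K + 1 := by
    have := K.coe_nonneg
    linarith
  obtain ⟨ε, hε, hε4, hεr, hεd, hεK⟩ : ∃ ε : ℝ, 0 < ε ∧ ε ≤ 1 / 4 ∧ ε ≤ r / 16 ∧ ε ≤ d / 2 ∧
      ε ≤ 1 / 4 / (K + 1) := by
    refine ⟨min (min (1 / 4) (r / 16)) (min (d / 2) (1 / 4 / (K + 1))), ?_, ?_, ?_, ?_, ?_⟩
    · exact lt_min (lt_min (by norm_num) (by linarith)) (lt_min (by linarith) (by positivity))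
    · exact (min_le_left _ _).trans (min_le_left _ _)
    · exact (min_le_left _ _).trans (min_le_right _ _)
    · exact (min_le_right _ _).trans (min_le_left _ _)
    · exact (min_le_right _ _).trans (min_le_right _ _)
  obtain ⟨δ, hδ⟩ : ∃ δ : E n → ℝ, δ = fun z => ε * χ z := ⟨_, rfl⟩
  have hδs : ContDiff ℝ ∞ δ := by
    rw [hδ]
    exact contDiff_const.mul hχs
  have hδ0 : ∀ z, 0 ≤ δ z := by
    intro z
    rw [hδ]
    exact mul_nonneg hε.le (hχ0 z)
  have hδε : ∀ z, δ z ≤ ε := by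
    intro z
    rw [hδ]
    calc ε * χ z ≤ ε * 1 := mul_le_mul_of_nonneg_left (hχ1 z) hε.le
      _ = ε := mul_one _
  have hδ4 : ∀ z, δ z ≤ 1 / 4 := fun z => (hδε z).trans hε4
  have hδz : ∀ z, 1 ≤ ‖z‖ → δ z = 0 := by
    intro z hz
    rw [hδ]
    change ε * χ z = 0
    rw [hχz z hz, mul_zero]
  have hδ1 : ∀ z, 1 < ‖z‖ → δ z = 0 := fun z hz => hδz z hz.le
  have hδp : ∀ z, ‖z‖ < 1 → 0 < δ z := by
    intro z hz
    rw [hδ]
    exact mul_pos hε (hχp z hz)
  have hδl : ∀ y z, |δ y - δ z| ≤ ‖y - z‖ / 4 := by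
    intro y z
    rw [hδ]
    change |ε * χ y - ε * χ z| ≤ _
    rw [← mul_sub, abs_mul, abs_of_pos hε]
    have h1 : |χ y - χ z| ≤ K * ‖y - z‖ := by
      have h2 := hK.dist_le_mul y z
      rwa [Real.dist_eq, dist_eq_norm] at h2
    have h3 : ε * (K + 1) ≤ 1 / 4 := by
      rwa [le_div_iff₀ hKp] at hεK
    have h4 : ε * K ≤ 1 / 4 := by
      have : ε * (K + 1) = ε * K + ε := by ring
      linarith
    calc ε * |χ y - χ z| ≤ ε * (K * ‖y - z‖) := mul_le_mul_of_nonneg_left h1 hε.le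
      _ = (ε * K) * ‖y - z‖ := by ring
      _ ≤ 1 / 4 * ‖y - z‖ := mul_le_mul_of_nonneg_right h4 (norm_nonneg _)
      _ = ‖y - z‖ / 4 := by ring
  obtain ⟨hS1, hS2, hS3, hS4⟩ := Pool.Agent.Y954.SH.mollS n G δ hG hδs hδ0 hδ4 hδ1
  have hclose : ∀ z, ‖z‖ ≤ 3 / 2 → ‖Moll n G δ z - G z‖ ≤ e' := by
    intro z hz
    have hin : ∀ s : E n, ‖s‖ ≤ 1 → ‖z + δ z • s‖ ≤ 2 := by
      intro s hs
      calc ‖z + δ z • s‖ ≤ ‖z‖ + ‖δ z • s‖ := norm_add_le _ _
        _ = ‖z‖ + δ z * ‖s‖ := by rw [norm_smul, Real.norm_of_nonneg (hδ0 z)]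
        _ ≤ 3 / 2 + 1 / 4 * 1 := by
            apply add_le_add hz
            exact mul_le_mul (hδ4 z) hs (norm_nonneg _) (by norm_num)
        _ ≤ 2 := by norm_num
    unfold Moll
    apply Pool.Agent.Q130.CM.norm_mean_sub_le
    · refine hG.comp (by fun_prop) ?_
      intro s hs
      rw [mem_closedBall_zero_iff] at hs ⊢
      exact hin s hs
    · intro s hs
      refine (hGu _ ?_ _ ?_ ?_).le
      · rw [mem_closedBall_zero_iff]
        exact hin s hs
      · rw [mem_closedBall_zero_iff]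
        linarith
      · rw [add_sub_cancel_left, norm_smul, Real.norm_of_nonneg (hδ0 z)]
        calc δ z * ‖s‖ ≤ ε * 1 := mul_le_mul (hδε z) hs (norm_nonneg _) hε.le
          _ < d := by linarith
  have hsubt : ∀ p : E n, ‖p‖ ≤ 3 / 2 → ∀ t : ℝ, 4 * t ≤ 1 / 4 →
      closedBall p (4 * t) ⊆ closedBall (0 : E n) 2 := by
    intro p hp t ht y hy
    rw [mem_closedBall, dist_eq_norm] at hy
    rw [mem_closedBall_zero_iff]
    have h1 : y = (y - p) + p := by abel
    rw [h1]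
    refine (norm_add_le _ _).trans ?_
    linarith
  refine ⟨δ, hδs, hδ0, hδ4, hδz, hδp, hδl, fun z hz => (hclose z hz).trans hee, ?_, ?_⟩
  · -- injectivity
    have key : ∀ p q : E n, ‖p‖ ≤ 3 / 2 → ‖q‖ ≤ 3 / 2 → q ≠ p →
        Moll n G δ q ≠ Moll n G δ p := by
      intro p q hp hq hne
      have hpos : 0 < ‖q - p‖ := norm_pos_iff.2 (sub_ne_zero.2 hne)
      rcases le_or_gt (r / 4) ‖q - p‖ with h1 | h1
      · intro h2
        have h3 := hsep p q hp hq h1
        have h4 : G q - G p = -(Moll n G δ q - G q) + (Moll n G δ p - G p) := by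
          rw [h2]
          abel
        have h5 := hclose p hp
        have h6 := hclose q hq
        rw [h4] at h3
        have h7 := h3.trans (norm_add_le _ _)
        rw [norm_neg] at h7
        linarith
      · obtain ⟨t, ht, hqt, hpt, htr, htc⟩ : ∃ t : ℝ, 0 < t ∧ ‖q - p‖ ≤ t ∧ δ p ≤ t ∧
            4 * t ≤ r ∧ (‖q - p‖ = t ∨ δ p = t) := by
          have h8 : δ p ≤ r / 16 := (hδε p).trans hεr
          rcases le_total ‖q - p‖ (δ p) with h2 | h2
          · exact ⟨δ p, lt_of_lt_of_le hpos h2, h2, le_rfl, by linarith, Or.inr rfl⟩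
          · exact ⟨‖q - p‖, hpos, le_rfl, h2, by linarith, Or.inl rfl⟩
        obtain ⟨c, hc, m, L, hm, hL, hAf⟩ := hr p (by rwa [mem_closedBall_zero_iff]) (4 * t)
          (by linarith) (htr.trans hrr)
        obtain ⟨g1, g2⟩ := hM G δ p t m (c / (2 * C)) L hm (by positivity) ht hδ0 hδl hpt
          (hG.mono (hsubt p hp t (by linarith))) hAf
        have eC : C * (c / (2 * C)) = c / 2 := by
          have : C ≠ 0 := by linarith
          field_simp
        rw [eC] at g1 g2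
        refine ne_of_aff (m := m) (c := c) (κ := c / 2) (s := ‖q - p‖) (L := L) hm (by linarith)
          (fun v => (hL v).1) hpos rfl ?_
        rcases htc with h9 | h9
        · have := g1 q hqt
          rwa [← h9] at this
        · exact g2 h9 q hqt
    intro p hp q hq hpq
    rw [mem_closedBall_zero_iff] at hp hq
    by_contra hne
    exact key q p hq hp hne hpq
  · intro z hz
    have hz1 : ‖z‖ ≤ 3 / 2 := by
      by_contra h
      push Not at h
      rw [hδz z (by linarith)] at hz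
      exact lt_irrefl _ hz
    have h8 : δ z ≤ r / 16 := (hδε z).trans hεr
    obtain ⟨c, hc, m, L, hm, hL, hAf⟩ := hr z (by rwa [mem_closedBall_zero_iff]) (4 * δ z)
      (by linarith) (by linarith)
    obtain ⟨g1, g2⟩ := hM G δ z (δ z) m (c / (2 * C)) L hm (by positivity) hz hδ0 hδl le_rfl
      (hG.mono (hsubt z hz1 (δ z) (by linarith))) hAf
    have eC : C * (c / (2 * C)) = c / 2 := by
      have : C ≠ 0 := by linarith
      field_simp
    rw [eC] at g2
    refine moll_LD (m := m) (c := c) (κ := c / 2) (L := L) hm (by linarith) (by linarith)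
      (fun v => (hL v).1) hz ?_ (g2 rfl)
    have h1 : ∀ᶠ y in 𝓝 z, 0 < δ y :=
      hδs.continuous.continuousAt.eventually (lt_mem_nhds hz)
    filter_upwards [h1] with y hy
    exact hS3 y hy

end Pool.Agent.Q169.AA
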