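import Pool.Agent.Q130.CM.Step

/-!
# Asymptotically affine maps: the mollification at a variable scale

`Aff n G c ε p s`: on the ball of radius `s` around `p` the map `G` is affine up to the error
`ε m s`, where the linear part `L` satisfies `c m |v| ≤ |L v| ≤ m |v|`. The scale `m` of the map and
the linear part `L` may depend on `p` and `s`.
-/

set_option autoImplicit false

open Set Filter Topology Metric Function MeasureTheory
open scoped Manifold ContDiff

noncomputable section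

namespace Pool.Agent.Q169.AA

open Pool.Agent.Y522 Pool.Agent.Y207.SH3

/-- `G` is affine up to a relative error `ε` at the point `p` and the scale `s` -/
def Aff (n : ℕ) (G : E n → E n) (c ε : ℝ) (p : E n) (s : ℝ) : Prop :=
  ∃ (m : ℝ) (L : E n →L[ℝ] E n), 0 < m ∧ (∀ v, c * m * ‖v‖ ≤ ‖L v‖ ∧ ‖L v‖ ≤ m * ‖v‖) ∧
    ∀ q, ‖q - p‖ ≤ s → ‖G q - G p - L (q - p)‖ ≤ ε * m * s

/-- `G` is asymptotically affine at `z` -/
def AAn (n : ℕ) (G : E n → E n) (z : E n) : Prop :=
  ∃ c : ℝ, 0 < c ∧ ∀ ε : ℝ, 0 < ε → ∃ r : ℝ, 0 < r ∧ ∀ p : E n, ‖p - z‖ ≤ r →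
    ∀ s : ℝ, 0 < s → s ≤ r → Aff n G c ε p s

section kernel

variable {n : ℕ}

theorem kr_lip (n : ℕ) : ∃ C : ℝ, 0 ≤ C ∧ ∀ x y : E n, |kr n x - kr n y| ≤ C * ‖x - y‖ := by
  obtain ⟨K, hK⟩ : ∃ K : NNReal, LipschitzWith K (kr n) := by
    refine ContDiff.lipschitzWith_of_hasCompactSupport (n := ∞) (𝕂 := ℝ) ?_ ?_ (by simp)
    · exact (bmp n).hasCompactSupport_normed
    · exact (bmp n).contDiff_normed
  refine ⟨K, K.coe_nonneg, fun x y => ?_⟩
  have h := hK.dist_le_mul x y
  rwa [Real.dist_eq, dist_eq_norm] at h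

theorem kr_bdd (n : ℕ) : ∃ M : ℝ, 0 ≤ M ∧ ∀ x : E n, |kr n x| ≤ M := by
  obtain ⟨M, hM⟩ := kr_cont.bounded_above_of_compact_support
    (show HasCompactSupport (kr n) from (bmp n).hasCompactSupport_normed)
  exact ⟨M, (norm_nonneg _).trans (hM 0), fun x => hM x⟩

theorem kr_even (s : E n) : kr n (-s) = kr n s := by
  unfold kr
  exact (bmp n).normed_neg s

theorem kr_first : ∫ s : E n, kr n s • s = 0 := by
  have h := integral_neg_eq_self (fun s : E n => kr n s • s) volume
  have h2 : (fun s : E n => kr n (-s) • (-s)) = fun s => -(kr n s • s) := by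
    funext s
    rw [kr_even, smul_neg]
  rw [h2, integral_neg] at h
  have h3 : (2 : ℝ) • ∫ s : E n, kr n s • s = 0 := by
    rw [two_smul]
    nth_rewrite 1 [← h]
    simp
  simpa using h3

theorem subst (f : E n → E n) (a : E n) {b : ℝ} (hb : 0 < b) :
    ∫ u, f u = b ^ n • ∫ x, f (a + b • x) := by
  have h1 := Measure.integral_comp_smul volume (fun y : E n => f (a + y)) b
  rw [finrank_euclideanSpace_fin, abs_of_pos (by positivity)] at h1
  have h2 : ∫ x, f (a + x) = ∫ x, f x := integral_add_left_eq_self f a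
  rw [h2] at h1
  rw [h1, smul_smul, mul_inv_cancel₀ (by positivity), one_smul]

theorem pow_sub_one_le {b : ℝ} (h0 : 0 ≤ b) (h2 : b ≤ 2) (n : ℕ) :
    |b ^ n - 1| ≤ 2 ^ n * |b - 1| := by
  induction n with
  | zero => simp
  | succ n ih =>
    have e : b ^ (n + 1) - 1 = b ^ n * (b - 1) + (b ^ n - 1) := by ring
    rw [e]
    have h3 : b ^ n ≤ 2 ^ n := pow_le_pow_left₀ h0 h2 n
    calc |b ^ n * (b - 1) + (b ^ n - 1)| ≤ |b ^ n * (b - 1)| + |b ^ n - 1| := abs_add_le _ _
      _ = b ^ n * |b - 1| + |b ^ n - 1| := by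
          rw [abs_mul, abs_of_nonneg (pow_nonneg h0 n)]
      _ ≤ 2 ^ n * |b - 1| + 2 ^ n * |b - 1| := by
          gcongr
      _ = 2 ^ (n + 1) * |b - 1| := by ring

/-- the kernels at nearby points and scales -/
theorem kdiff (n : ℕ) : ∃ C : ℝ, 0 ≤ C ∧ ∀ (e : E n → E n) (p q : E n) (d d' σ : ℝ), 0 < d →
    0 ≤ σ → ‖q - p‖ ≤ d → |d' - d| ≤ ‖q - p‖ / 4 → (∀ w, ‖w - p‖ ≤ 4 * d → ‖e w‖ ≤ σ) →
    ContinuousOn e (closedBall p (4 * d)) →
    ‖(∫ u, kr n u • e (q + d' • u)) - ∫ u, kr n u • e (p + d • u)‖ ≤ C * σ * (‖q - p‖ / d) := by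
  obtain ⟨K, hK, hKl⟩ := kr_lip n
  obtain ⟨M, hM, hMb⟩ := kr_bdd n
  refine ⟨(2 ^ n * M / 3 + 7 / 3 * K) * volume.real (closedBall (0 : E n) 3), by positivity, ?_⟩
  intro e p q d d' σ hd hσ hqp hdd he hec
  have hdd' := abs_le.1 hdd
  have hd' : 3 / 4 * d ≤ d' := by linarith [hdd'.1]
  have hd'' : d' ≤ 5 / 4 * d := by linarith [hdd'.2]
  have hd'0 : 0 < d' := by linarith
  obtain ⟨b, hb⟩ : ∃ b : ℝ, b = d / d' := ⟨_, rfl⟩
  obtain ⟨a, ha⟩ : ∃ a : E n, a = d'⁻¹ • (p - q) := ⟨_, rfl⟩
  have hb0 : 0 < b := by rw [hb]; positivity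
  have hbd : d' * b = d := by rw [hb]; field_simp
  have hb1 : |b - 1| ≤ ‖q - p‖ / (3 * d) := by
    have e1 : b - 1 = (d - d') / d' := by rw [hb]; field_simp
    rw [e1, abs_div, abs_of_pos hd'0, div_le_div_iff₀ hd'0 (by positivity), abs_sub_comm]
    nlinarith [norm_nonneg (q - p)]
  have hb2 : b ≤ 2 := by
    have h1 := (abs_le.1 hb1).2
    have h2 : ‖q - p‖ / (3 * d) ≤ 1 := by
      rw [div_le_one (by positivity)]
      linarith
    linarith
  have hpt : ∀ x : E n, q + d' • (a + b • x) = p + d • x := by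
    intro x
    rw [smul_add, smul_smul, hbd, ha, smul_smul, mul_inv_cancel₀ hd'0.ne', one_smul]
    abel
  have hcs : ∀ x : E n, ‖x‖ ≤ 3 → ‖p + d • x - p‖ ≤ 4 * d := by
    intro x hx
    rw [add_sub_cancel_left, norm_smul, Real.norm_of_nonneg hd.le]
    nlinarith
  have hec' : ContinuousOn (fun x : E n => e (p + d • x)) (closedBall 0 3) := by
    refine hec.comp (by fun_prop) ?_
    intro x hx
    rw [mem_closedBall_zero_iff] at hx
    rw [mem_closedBall, dist_eq_norm]
    exact hcs x hx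
  -- the supports
  have hs1 : ∀ x : E n, 3 < ‖x‖ → kr n (a + b • x) = 0 := by
    intro x hx
    apply kr_zero
    have h1 : d' • (a + b • x) = (p - q) + d • x := by
      have := hpt x
      have h2 : d' • (a + b • x) = (q + d' • (a + b • x)) - q := by abel
      rw [h2, this]
      abel
    have h2 : d' * ‖a + b • x‖ = ‖(p - q) + d • x‖ := by
      rw [← h1, norm_smul, Real.norm_of_nonneg hd'0.le]
    have h3 : d * ‖x‖ - ‖q - p‖ ≤ ‖(p - q) + d • x‖ := by
      have h4 : ‖d • x‖ = d * ‖x‖ := by rw [norm_smul, Real.norm_of_nonneg hd.le]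
      have h5 : d • x = ((p - q) + d • x) + (q - p) := by abel
      have h6 := norm_add_le ((p - q) + d • x) (q - p)
      rw [← h5, h4] at h6
      linarith
    by_contra hcon
    push Not at hcon
    have h7 : d' * ‖a + b • x‖ ≤ d' := by nlinarith
    nlinarith
  have hs2 : ∀ x : E n, 3 < ‖x‖ → kr n x = 0 := fun x hx => kr_zero (by linarith)
  -- substitution
  have hsub : ∫ u, kr n u • e (q + d' • u) =
      ∫ x, (b ^ n * kr n (a + b • x)) • e (p + d • x) := by
    rw [subst (fun u => kr n u • e (q + d' • u)) a hb0, ← integral_smul]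
    congr 1
    funext x
    rw [hpt, smul_smul]
  have hi1 : Integrable (fun x : E n => (b ^ n * kr n (a + b • x)) • e (p + d • x)) := by
    have h1 : IntegrableOn (fun x : E n => (b ^ n * kr n (a + b • x)) • e (p + d • x))
        (closedBall (0 : E n) 3) := by
      refine ContinuousOn.integrableOn_compact (isCompact_closedBall _ _) ?_
      have h2 : Continuous fun x : E n => b ^ n * kr n (a + b • x) := by
        have := kr_cont (n := n)
        fun_prop
      exact h2.continuousOn.smul hec'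
    rwa [integrableOn_iff_integrable_of_support_subset] at h1
    intro x hx
    rw [mem_closedBall_zero_iff]
    by_contra hcon
    push Not at hcon
    apply hx
    change (b ^ n * kr n (a + b • x)) • e (p + d • x) = 0
    rw [hs1 x hcon, mul_zero, zero_smul]
  have hi2 : Integrable (fun x : E n => kr n x • e (p + d • x)) :=
    kr_smul_integrable (hec'.mono (closedBall_subset_closedBall (by norm_num)))
  rw [hsub, ← integral_sub hi1 hi2]
  have hbd1 : ∀ x ∈ closedBall (0 : E n) 3,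
      ‖(b ^ n * kr n (a + b • x)) • e (p + d • x) - kr n x • e (p + d • x)‖ ≤
        (2 ^ n * M / 3 + 7 / 3 * K) * (‖q - p‖ / d) * σ := by
    intro x hx
    rw [mem_closedBall_zero_iff] at hx
    rw [← sub_smul, norm_smul]
    refine mul_le_mul ?_ (he _ (hcs x hx)) (norm_nonneg _) (by positivity)
    rw [Real.norm_eq_abs]
    have e1 : b ^ n * kr n (a + b • x) - kr n x =
        (b ^ n - 1) * kr n (a + b • x) + (kr n (a + b • x) - kr n x) := by ring
    rw [e1]
    refine (abs_add_le _ _).trans ?_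
    rw [abs_mul]
    have h1 : |b ^ n - 1| ≤ 2 ^ n * (‖q - p‖ / (3 * d)) :=
      (pow_sub_one_le hb0.le hb2 n).trans (mul_le_mul_of_nonneg_left hb1 (by positivity))
    have h2 : ‖a + b • x - x‖ ≤ 7 / 3 * (‖q - p‖ / d) := by
      have e2 : a + b • x - x = a + (b - 1) • x := by
        rw [sub_smul, one_smul]
        abel
      rw [e2]
      refine (norm_add_le _ _).trans ?_
      have h3 : ‖a‖ ≤ 4 / 3 * (‖q - p‖ / d) := by
        rw [ha, norm_smul, norm_inv, Real.norm_of_nonneg hd'0.le, norm_sub_rev, inv_mul_eq_div,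
          div_le_iff₀ hd'0]
        have e3 : 4 / 3 * (‖q - p‖ / d) * d' = ‖q - p‖ * (4 / 3 * (d' / d)) := by ring
        rw [e3]
        have h4 : 1 ≤ 4 / 3 * (d' / d) := by
          have : 3 / 4 ≤ d' / d := by
            rw [le_div_iff₀ hd]
            exact hd'
          linarith
        nlinarith [norm_nonneg (q - p)]
      have h5 : ‖(b - 1) • x‖ ≤ ‖q - p‖ / d := by
        rw [norm_smul, Real.norm_eq_abs]
        calc |b - 1| * ‖x‖ ≤ ‖q - p‖ / (3 * d) * 3 :=
              mul_le_mul hb1 hx (norm_nonneg _) (by positivity)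
          _ = ‖q - p‖ / d := by
              field_simp
      linarith
    have h6 := hKl (a + b • x) x
    have h7 : K * ‖a + b • x - x‖ ≤ K * (7 / 3 * (‖q - p‖ / d)) :=
      mul_le_mul_of_nonneg_left h2 hK
    have h8 : |b ^ n - 1| * |kr n (a + b • x)| ≤ 2 ^ n * (‖q - p‖ / (3 * d)) * M :=
      mul_le_mul h1 (hMb _) (abs_nonneg _) (by positivity)
    have e4 : 2 ^ n * (‖q - p‖ / (3 * d)) * M = 2 ^ n * M / 3 * (‖q - p‖ / d) := by
      field_simp
    rw [e4] at h8
    nlinarith
  have hset : ∫ x, ((b ^ n * kr n (a + b • x)) • e (p + d • x) - kr n x • e (p + d • x)) =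
      ∫ x in closedBall (0 : E n) 3,
        ((b ^ n * kr n (a + b • x)) • e (p + d • x) - kr n x • e (p + d • x)) := by
    rw [setIntegral_eq_integral_of_forall_compl_eq_zero]
    intro x hx
    rw [mem_closedBall_zero_iff, not_le] at hx
    rw [hs1 x hx, hs2 x hx, mul_zero, zero_smul, sub_self]
  rw [hset]
  refine (norm_setIntegral_le_of_norm_le_const (measure_closedBall_lt_top) hbd1).trans ?_
  apply le_of_eq
  ring

/-- continuity of the difference to an affine map -/
theorem err_cont {G : E n → E n} {S : Set (E n)} (hG : ContinuousOn G S) (p w : E n)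
    (L : E n →L[ℝ] E n) : ContinuousOn (fun x => G x - w - L (x - p)) S := by
  have h1 : Continuous fun x : E n => L (x - p) := by fun_prop
  exact (hG.sub continuousOn_const).sub h1.continuousOn

/-- **The mollification of a nearly affine map.** -/
theorem moll_aff (n : ℕ) : ∃ C : ℝ, 1 ≤ C ∧ ∀ (G : E n → E n) (δ : E n → ℝ) (p : E n)
    (t m ε : ℝ) (L : E n →L[ℝ] E n), 0 < m → 0 < ε → 0 < t → (∀ z, 0 ≤ δ z) →
    (∀ y z, |δ y - δ z| ≤ ‖y - z‖ / 4) → δ p ≤ t → ContinuousOn G (closedBall p (4 * t)) →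
    (∀ q, ‖q - p‖ ≤ 4 * t → ‖G q - G p - L (q - p)‖ ≤ ε * m * (4 * t)) →
    (∀ q, ‖q - p‖ ≤ t → ‖Moll n G δ q - Moll n G δ p - L (q - p)‖ ≤ C * ε * m * t) ∧
    (δ p = t → ∀ q, ‖q - p‖ ≤ t →
      ‖Moll n G δ q - Moll n G δ p - L (q - p)‖ ≤ C * ε * m * ‖q - p‖) := by
  obtain ⟨C, hC, hK⟩ := kdiff n
  refine ⟨8 + 4 * C, by linarith, ?_⟩
  intro G δ p t m ε L hm hε ht hδ0 hδl hδp hG hA
  obtain ⟨e, he⟩ : ∃ e : E n → E n, e = fun w => G w - G p - L (w - p) := ⟨_, rfl⟩
  have hec : ContinuousOn e (closedBall p (4 * t)) := by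
    rw [he]
    exact err_cont hG p (G p) L
  have heb : ∀ w, ‖w - p‖ ≤ 4 * t → ‖e w‖ ≤ ε * m * (4 * t) := by
    rw [he]
    exact hA
  have hin : ∀ q, ‖q - p‖ ≤ t → ∀ u : E n, ‖u‖ ≤ 1 → ‖q + δ q • u - p‖ ≤ 4 * t := by
    intro q hq u hu
    have h1 := (abs_le.1 (hδl q p)).2
    have h2 : q + δ q • u - p = (q - p) + δ q • u := by abel
    rw [h2]
    refine (norm_add_le _ _).trans ?_
    rw [norm_smul, Real.norm_of_nonneg (hδ0 q)]
    have h3 : δ q * ‖u‖ ≤ δ q * 1 := mul_le_mul_of_nonneg_left hu (hδ0 q)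
    linarith
  have hcomp : ∀ q, ‖q - p‖ ≤ t → ContinuousOn (fun u : E n => e (q + δ q • u))
      (closedBall 0 1) := by
    intro q hq
    refine hec.comp (by fun_prop) ?_
    intro u hu
    rw [mem_closedBall_zero_iff] at hu
    rw [mem_closedBall, dist_eq_norm]
    exact hin q hq u hu
  -- the formula
  have hR : ∀ q, ‖q - p‖ ≤ t → Moll n G δ q = G p + L (q - p) +
      ∫ u, kr n u • e (q + δ q • u) := by
    intro q hq
    have h1 : (fun u : E n => kr n u • G (q + δ q • u)) = fun u =>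
        (kr n u • (G p + L (q - p)) + δ q • L (kr n u • u)) + kr n u • e (q + δ q • u) := by
      funext u
      rw [he]
      have h2 : L (q + δ q • u - p) = L (q - p) + δ q • L u := by
        rw [← map_smul, ← map_add]
        congr 1
        abel
      simp only [h2, map_smul]
      module
    have hi1 : Integrable (fun u : E n => kr n u • (G p + L (q - p))) :=
      kr_smul_integrable continuousOn_const
    have hi0 : Integrable (fun u : E n => kr n u • u) := kr_smul_integrable continuousOn_id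
    have hi2 : Integrable (fun u : E n => δ q • L (kr n u • u)) :=
      (L.integrable_comp hi0).smul (δ q)
    have hi3 : Integrable (fun u : E n => kr n u • e (q + δ q • u)) :=
      kr_smul_integrable (hcomp q hq)
    have hi12 : Integrable (fun u : E n => kr n u • (G p + L (q - p)) + δ q • L (kr n u • u)) :=
      hi1.add hi2
    unfold Moll
    rw [h1, integral_add hi12 hi3, integral_add hi1 hi2, integral_smul_const, kr_int,
      one_smul, integral_smul, ContinuousLinearMap.integral_comp_comm L hi0, kr_first, map_zero,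
      smul_zero, add_zero]
  have hRb : ∀ q, ‖q - p‖ ≤ t → ‖∫ u, kr n u • e (q + δ q • u)‖ ≤ ε * m * (4 * t) := by
    intro q hq
    have h1 := Pool.Agent.Q130.CM.norm_mean_sub_le (w := 0) (e := ε * m * (4 * t)) (hcomp q hq)
      (fun u hu => by
        rw [sub_zero]
        exact heb _ (hin q hq u hu))
    rwa [sub_zero] at h1
  have hpp : ‖p - p‖ ≤ t := by
    rw [sub_self, norm_zero]
    exact ht.le
  have hdiff : ∀ q, ‖q - p‖ ≤ t → Moll n G δ q - Moll n G δ p - L (q - p) =
      (∫ u, kr n u • e (q + δ q • u)) - ∫ u, kr n u • e (p + δ p • u) := by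
    intro q hq
    rw [hR q hq, hR p hpp, sub_self, map_zero, add_zero]
    abel
  have hεm : 0 < ε * m := mul_pos hε hm
  refine ⟨fun q hq => ?_, fun hδt q hq => ?_⟩
  · rw [hdiff q hq]
    refine (norm_sub_le _ _).trans ?_
    have h1 := hRb q hq
    have h2 := hRb p hpp
    have h3 : (8 + 4 * C) * ε * m * t = 8 * (ε * m * t) + 4 * (C * (ε * m * t)) := by ring
    have h4 : 0 ≤ C * (ε * m * t) := by positivity
    rw [h3]
    linarith
  · rw [hdiff q hq]
    have h1 := hK e p q (δ p) (δ q) (ε * m * (4 * t)) (by rw [hδt]; exact ht) (by positivity)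
      (by rw [hδt]; exact hq) (hδl q p) (by rw [hδt]; exact heb) (by rw [hδt]; exact hec)
    refine h1.trans ?_
    rw [hδt]
    have h2 : C * (ε * m * (4 * t)) * (‖q - p‖ / t) = 4 * (C * (ε * m * ‖q - p‖)) := by
      field_simp
    have h3 : (8 + 4 * C) * ε * m * ‖q - p‖ = 8 * (ε * m * ‖q - p‖) + 4 * (C * (ε * m * ‖q - p‖)) := by
      ring
    have h4 : 0 ≤ ε * m * ‖q - p‖ := by positivity
    rw [h2, h3]
    linarith

end kernel

end Pool.Agent.Q169.AA
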