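import Pool.Agent.Q169.AA.Stage
import Pool.Agent.Q130.CM.Lim

/-!
# Asymptotically affine homeomorphisms are limits of diffeomorphisms
-/

set_option autoImplicit false

open Set Filter Topology Metric Function MeasureTheory
open scoped Manifold ContDiff

noncomputable section

namespace Pool.Agent.Q169.AA

open Pool.Agent.Y522 Pool.Agent.Y66.CM Pool.Agent.Q130.CM

theorem box_exists {n : ℕ} {X : Type} [TopologicalSpace X] [ChartedSpace (E n) X]
    [IsManifold (𝓡 n) ∞ X] {x : X} {W : Set X} (hW : IsOpen W) (hxW : x ∈ W) :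
    ∃ B : E n → X, B 0 = x ∧ InjOn B (closedBall 0 2) ∧
      (∀ z ∈ closedBall (0 : E n) 2, LD n B z) ∧ (∀ z ∈ closedBall (0 : E n) 2, B z ∈ W) := by
  obtain ⟨p, hp1, hp2, -, -⟩ :=
    (LD_chart (n := n) x x (mem_chart_source (E n) x)).exists_inverse
  obtain ⟨y0, hy0⟩ : ∃ y0 : E n, y0 = chartAt (E n) x x := ⟨_, rfl⟩
  rw [← hy0] at hp1 hp2
  obtain ⟨A, hAd⟩ : ∃ A : E n → X, A = fun y => p (y + y0) := ⟨_, rfl⟩
  have hA0 : A 0 = x := by
    rw [hAd]
    change p (0 + y0) = x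
    rw [zero_add, hp2]
  have hA : LD n A 0 := by
    rw [hAd]
    refine LD.comp_fun (g := p) (f := fun y => y + y0) ?_ (LD_add_const y0 0)
    rw [zero_add]
    exact hp1
  obtain ⟨u, hu, hinj⟩ := hA.eventually_injOn
  have hAW : A ⁻¹' W ∈ 𝓝 (0 : E n) :=
    hA.continuousAt.preimage_mem_nhds (hW.mem_nhds (by rwa [hA0]))
  obtain ⟨ρ, hρ, hball⟩ := (nhds_basis_closedBall (x := (0 : E n))).mem_iff.mp
    (Filter.inter_mem (Filter.inter_mem hu hA.eventually) hAW)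
  have hmem : ∀ z ∈ closedBall (0 : E n) 2, (ρ / 2) • z ∈ closedBall (0 : E n) ρ := by
    intro z hz
    rw [mem_closedBall_zero_iff] at hz ⊢
    rw [norm_smul, Real.norm_eq_abs, abs_of_pos (by linarith)]
    calc ρ / 2 * ‖z‖ ≤ ρ / 2 * 2 := mul_le_mul_of_nonneg_left hz (by linarith)
      _ = ρ := by ring
  refine ⟨fun z => A ((ρ / 2) • z), ?_, ?_, ?_, ?_⟩
  · simp [hA0]
  · intro a ha b hb hab
    have h1 := hinj (hball (hmem a ha)).1.1 (hball (hmem b hb)).1.1 hab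
    have h2 : (ρ / 2 : ℝ) ≠ 0 := by linarith
    exact smul_right_injective _ h2 h1
  · intro z hz
    have h2 : (ρ / 2 : ℝ) ≠ 0 := by linarith
    have h3 : LD n (fun y : E n => (ρ / 2) • y) z :=
      LD_linear (ContinuousLinearEquiv.smulLeft (Units.mk0 (ρ / 2) h2)) z
    have h4 : LD n A ((ρ / 2) • z) := (hball (hmem z hz)).1.2
    exact LD.comp_fun (g := A) (f := fun y : E n => (ρ / 2) • y) h4 h3
  · intro z hz
    exact (hball (hmem z hz)).2

/-- one stage near a compact set -/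
theorem stageA (n : ℕ) (X Y : Type) [TopologicalSpace X] [T2Space X] [ChartedSpace (E n) X]
    [IsManifold (𝓡 n) ∞ X] [TopologicalSpace Y] [T2Space Y] [ChartedSpace (E n) Y]
    [IsManifold (𝓡 n) ∞ Y] (f : X ≃ₜ Y) (hx : ∀ x, AAM n f x)
    (D W : Set X) (hD : IsCompact D) (hW : IsOpen W) (hDW : D ⊆ W) (V : Set Y) (hV : IsOpen V)
    (B : Y → E n) (hBi : InjOn B V) (hBd : ∀ y ∈ V, LD n B y) (hWV : ∀ x ∈ W, f x ∈ V)
    (O : Set (X × Y)) (hO : IsOpen O) (hfO : ∀ x, (x, f x) ∈ O) :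
    ∃ f' : X ≃ₜ Y, (∀ x, AAM n f' x) ∧ (∀ x, (x, f' x) ∈ O) ∧
      (∀ x, LD n f x → LD n f' x) ∧ (∀ x ∈ D, LD n f' x) ∧ ∀ x, x ∉ W → f' x = f x := by
  classical
  have h1 : ∀ x, x ∈ D → ∃ B : E n → X, B 0 = x ∧ InjOn B (closedBall 0 2) ∧
      (∀ z ∈ closedBall (0 : E n) 2, LD n B z) ∧ (∀ z ∈ closedBall (0 : E n) 2, B z ∈ W) :=
    fun x hxD => box_exists hW (hDW hxD)
  choose! A hA0 hAi hAd hAW using h1
  have hU : ∀ x (_ : x ∈ D), A x '' ball 0 (1 / 2) ∈ 𝓝 x := by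
    intro x hx
    have h2 : LD n (A x) 0 := hAd x hx 0 (by simp)
    have h3 := h2.image_mem_nhds (ball_mem_nhds (0 : E n) (by norm_num : (0 : ℝ) < 1 / 2))
    rwa [hA0 x hx] at h3
  obtain ⟨t, ht⟩ := hD.elim_nhds_subcover' (fun x _ => A x '' ball 0 (1 / 2)) hU
  have key : ∀ s : Finset D, ∃ f' : X ≃ₜ Y, (∀ x, AAM n f' x) ∧ (∀ x, (x, f' x) ∈ O) ∧
      (∀ x, LD n f x → LD n f' x) ∧
      (∀ a ∈ s, ∀ z : E n, ‖z‖ ≤ 1 / 2 → LD n f' (A (a : X) z)) ∧
      (∀ x ∈ W, f' x ∈ V) ∧ ∀ x, x ∉ W → f' x = f x := by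
    intro s
    induction s using Finset.induction_on with
    | empty => exact ⟨f, hx, hfO, fun _ h => h, fun a ha => absurd ha (Finset.notMem_empty a),
        hWV, fun _ _ => rfl⟩
    | insert a s ha ih =>
      obtain ⟨g, g1, g2, g3, g4, g5, g6⟩ := ih
      obtain ⟨g', k1, k2, k3, k4, k5, k6⟩ := stage1 n X Y g g1 W hW (A (a : X))
        (hAi _ a.2) (hAd _ a.2) (hAW _ a.2) V hV B hBi hBd g5 O hO g2
      refine ⟨g', k1, k2, fun x h => k3 x (g3 x h), ?_, k5, fun x h => (k6 x h).trans (g6 x h)⟩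
      intro b hb z hz
      rcases Finset.mem_insert.1 hb with h | h
      · rw [h]
        exact k4 z hz
      · exact k3 _ (g4 b h z hz)
  obtain ⟨f', g1, g2, g3, g4, g5, g6⟩ := key t
  refine ⟨f', g1, g2, g3, fun x hxD => ?_, g6⟩
  have h2 := ht hxD
  rw [mem_iUnion₂] at h2
  obtain ⟨a, ha, z, hz, hzx⟩ := h2
  rw [mem_ball_zero_iff] at hz
  rw [← hzx]
  exact g4 a ha z hz.le

/-- **Asymptotically affine homeomorphisms are limits of diffeomorphisms**, relative version for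
noncompact manifolds. -/
theorem aaInf (n : ℕ) (X Y : Type) [TopologicalSpace X] [T2Space X] [ChartedSpace (E n) X]
    [IsManifold (𝓡 n) ∞ X] [SigmaCompactSpace X] [TopologicalSpace Y] [T2Space Y]
    [ChartedSpace (E n) Y] [IsManifold (𝓡 n) ∞ Y] (f : X ≃ₜ Y)
    (V : Set X) (hV : IsOpen V) (hbad : ∀ x, ¬ LD n f x → x ∈ V ∧ AAM n f x)
    (O : Set (X × Y)) (hO : IsOpen O) (hfO : ∀ x, (x, f x) ∈ O) :
    ∃ f' : X → Y, (∀ x, (x, f' x) ∈ O) ∧ Bijective f' ∧ (∀ x, LD n f' x) ∧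
      ∀ x, x ∉ V → f' x = f x := by
  have : LocallyCompactSpace X := ChartedSpace.locallyCompactSpace (E n) X
  have hs : IsClosed {x | ¬ LD n f x} := by
    rw [← isOpen_compl_iff, isOpen_iff_mem_nhds]
    intro x hx
    have hx' : LD n f x := by
      by_contra h
      exact hx h
    filter_upwards [hx'.eventually] with y hy h using h hy
  obtain ⟨α, hα, c, D, W, h1, h2, h3, h4, h5, h6, h7⟩ := exists_pairs {x | ¬ LD n f x} hs
    (fun x => V ∩ f ⁻¹' (chartAt (E n) (f x)).source)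
    (fun x hx => inter_mem (hV.mem_nhds (hbad x hx).1)
      (f.continuous.continuousAt.preimage_mem_nhds
        ((chartAt (E n) (f x)).open_source.mem_nhds (mem_chart_source _ _))))
  -- the neighbourhood of the graph
  let C1 : α → Set (X × Y) := fun a =>
    closure (W a) ×ˢ (chartAt (E n) (f (c a))).sourceᶜ
  have hC1 : ∀ a, IsClosed (C1 a) := fun a =>
    isClosed_closure.prod (chartAt (E n) (f (c a))).open_source.isClosed_compl
  have hC1l : LocallyFinite C1 := by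
    have h1 : LocallyFinite fun a => (Prod.fst ⁻¹' closure (W a) : Set (X × Y)) :=
      h7.preimage_continuous continuous_fst
    exact h1.subset fun a p hp => hp.1
  obtain ⟨O', hO'd⟩ : ∃ O' : Set (X × Y), O' = O ∩ (⋃ a, C1 a)ᶜ := ⟨_, rfl⟩
  have hO' : IsOpen O' := by
    rw [hO'd]
    exact hO.inter (hC1l.isClosed_iUnion hC1).isOpen_compl
  have hfO' : ∀ x, (x, f x) ∈ O' := by
    intro x
    rw [hO'd]
    refine ⟨hfO x, fun h => ?_⟩
    obtain ⟨a, h8, h9⟩ := mem_iUnion.1 h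
    exact h9 (h5 a h8).2
  have hO'W : ∀ p ∈ O', ∀ a, p.1 ∈ W a → p.2 ∈ (chartAt (E n) (f (c a))).source := by
    intro p hp a hpa
    rw [hO'd] at hp
    by_contra hcon
    exact hp.2 (mem_iUnion.2 ⟨a, subset_closure hpa, hcon⟩)
  obtain ⟨f', g1, g2, g3, g4⟩ := limit n f (fun g => ∀ x, AAM n g x)
    (fun x => by
      by_cases hx : LD n f x
      · exact AAM_of_LD hx
      · exact (hbad x hx).2)
    D W (h7.subset fun a => subset_closure) O' hO' hfO'
    (fun x hx => mem_iUnion.1 (h6 hx))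
    (fun a g O'' hO'' hsub hg hgO => by
      obtain ⟨g', k1, k2, k3, k4, k5⟩ := stageA n X Y g hg (D a) (W a) (h2 a) (h3 a) (h4 a)
        (chartAt (E n) (f (c a))).source (chartAt (E n) (f (c a))).open_source
        (chartAt (E n) (f (c a))) (chartAt (E n) (f (c a))).injOn
        (fun y hy => LD_chart _ y hy)
        (fun x hx => hO'W _ (hsub (hgO x)) a hx) O'' hO'' hgO
      exact ⟨g', k1, k2, k3, k4, k5⟩)
  refine ⟨f', fun x => ?_, g2, g3, fun x hx => g4 x fun a ha => hx (h5 a (subset_closure ha)).1⟩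
  have h := g1 x
  rw [hO'd] at h
  exact h.1

end Pool.Agent.Q169.AA
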