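import Pool.Agent.Q169.AA.Final
import Pool.Agent.Q131.CM.Cov

/-!
# Asymptotically affine maps are local homeomorphisms
-/

set_option autoImplicit false

open Set Filter Topology Metric Function MeasureTheory
open scoped Manifold ContDiff

noncomputable section

namespace Pool.Agent.Q169.AA

open Pool.Agent.Y522 Pool.Agent.Y66.CM Pool.Agent.Q130.CM

theorem AAn.injOn {n : ℕ} {G : E n → E n} {z : E n} (h : AAn n G z) :
    ∃ u ∈ 𝓝 z, InjOn G u := by
  obtain ⟨c, hc, h⟩ := h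
  obtain ⟨r, hr, h1⟩ := h (c / 2) (by linarith)
  refine ⟨closedBall z (r / 2), closedBall_mem_nhds z (by linarith), ?_⟩
  intro p hp q hq hpq
  rw [mem_closedBall, dist_eq_norm] at hp hq
  by_contra hne
  have hpos : 0 < ‖q - p‖ := norm_pos_iff.2 (sub_ne_zero.2 (Ne.symm hne))
  have hqp : ‖q - p‖ ≤ r := by
    have e : q - p = (q - z) - (p - z) := by abel
    rw [e]
    refine (norm_sub_le _ _).trans ?_
    linarith
  obtain ⟨m, L, hm, hL, hA⟩ := h1 p (by linarith) ‖q - p‖ hpos hqp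
  exact ne_of_aff hm (by linarith) (fun v => (hL v).1) hpos rfl (hA q le_rfl) hpq.symm

theorem AAM.injOn {n : ℕ} {X Y : Type} [TopologicalSpace X] [ChartedSpace (E n) X]
    [IsManifold (𝓡 n) ∞ X] [TopologicalSpace Y] [ChartedSpace (E n) Y] [IsManifold (𝓡 n) ∞ Y]
    {f : X → Y} {x : X} (h : AAM n f x) : ∃ u ∈ 𝓝 x, InjOn f u := by
  obtain ⟨A, hA0, hAi, hAd, -⟩ := box_exists (n := n) (x := x) (W := univ) isOpen_univ (mem_univ x)
  have hA : LD n A 0 := hAd 0 (by simp)
  have hB : LD n (chartAt (E n) (f x) : Y → E n) (f x) := LD_chart _ _ (mem_chart_source _ _)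
  obtain ⟨u, hu, hi⟩ := (h _ hB A 0 hA hA0).injOn
  have h1 : A '' (u ∩ closedBall 0 2) ∈ 𝓝 x := by
    rw [← hA0]
    exact hA.image_mem_nhds (inter_mem hu (closedBall_mem_nhds 0 (by norm_num)))
  refine ⟨_, h1, ?_⟩
  rintro _ ⟨p, hp, rfl⟩ _ ⟨q, hq, rfl⟩ hpq
  have h2 : p = q := hi hp.1 hq.1 (by
    change (chartAt (E n) (f x)) (f (A p)) = (chartAt (E n) (f x)) (f (A q))
    rw [hpq])
  rw [h2]

/-- locally injective continuous maps of manifolds are local homeomorphisms -/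
theorem isLocalHomeomorph_of_locInj (n : ℕ) {X Y : Type} [TopologicalSpace X]
    [ChartedSpace (E n) X] [TopologicalSpace Y] [ChartedSpace (E n) Y] (f : X → Y)
    (hc : Continuous f) (hi : ∀ x, ∃ u ∈ 𝓝 x, InjOn f u) : IsLocalHomeomorph f := by
  rw [isLocalHomeomorph_iff_isOpenEmbedding_restrict]
  intro x
  obtain ⟨u, hu, hiu⟩ := hi x
  obtain ⟨s, hs, hso, hxs⟩ := mem_nhds_iff.1 hu
  refine ⟨s, hso.mem_nhds hxs, ?_⟩
  let S : TopologicalSpace.Opens X := ⟨s, hso⟩
  have h1 : Continuous (fun y : S => f y) := hc.comp continuous_subtype_val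
  have h2 : Injective (fun y : S => f y) := by
    intro a b hab
    exact Subtype.ext (hiu (hs a.2) (hs b.2) hab)
  have h3 : IsOpenMap (fun y : S => f y) :=
    Pool.Agent.Q130.CM.isOpenMap_of_injective n (X := S) (fun y : S => f y) h1 h2
  exact IsOpenEmbedding.of_continuous_injective_isOpenMap h1 h2 h3

end Pool.Agent.Q169.AA
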