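import Pool.Agent.Q169.AA.Box

/-!
# Asymptotically affine maps of manifolds
-/

set_option autoImplicit false

open Set Filter Topology Metric Function MeasureTheory
open scoped Manifold ContDiff

noncomputable section

namespace Pool.Agent.Q169.AA

open Pool.Agent.Y522 Pool.Agent.Y207.SH3

section defs

variable (n : ℕ) {X Y : Type} [TopologicalSpace X] [ChartedSpace (E n) X] [TopologicalSpace Y]
  [ChartedSpace (E n) Y]

/-- `F` is asymptotically affine at `x`, in all parametrizations -/
def AAE (F : X → E n) (x : X) : Prop :=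
  ∀ (A : E n → X) (z : E n), LD n A z → A z = x → AAn n (fun y => F (A y)) z

/-- `f` is asymptotically affine at `x`, in all parametrizations and charts -/
def AAM (f : X → Y) (x : X) : Prop :=
  ∀ B : Y → E n, LD n B (f x) → AAE n (fun w => B (f w)) x

end defs

variable {n : ℕ} {X Y : Type} [TopologicalSpace X] [ChartedSpace (E n) X] [TopologicalSpace Y]
  [ChartedSpace (E n) Y]

theorem AAE.of {F : X → E n} {A : E n → X} {z : E n} (hA : LD n A z)
    (h : AAn n (fun y => F (A y)) z) : AAE n F (A z) := by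
  intro A' z' hA' hz'
  obtain ⟨p, hp1, hp2, hp3, hp4⟩ := hA.exists_inverse
  have hT : LD n (fun y => p (A' y)) z' := LD.comp_fun (by rw [hz']; exact hp1) hA'
  have hTz : p (A' z') = z := by rw [hz', hp2]
  have h1 : AAn n (fun y => (fun w => F (A w)) (p (A' y))) z' := by
    refine AAn.pre (G := fun w => F (A w)) (T := fun y => p (A' y)) ?_ hT
    rw [hTz]
    exact h
  refine AAn.congr h1 ?_
  have h2 : ∀ᶠ y in 𝓝 z', A (p (A' y)) = A' y := by
    have h3 := hA'.continuousAt
    unfold ContinuousAt at h3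
    rw [hz'] at h3
    exact h3.eventually hp4
  filter_upwards [h2] with y hy
  simp only [hy]

theorem AAE.congr {F F' : X → E n} {x : X} (h : AAE n F x) (he : F' =ᶠ[𝓝 x] F) :
    AAE n F' x := by
  intro A z hA hz
  refine AAn.congr (h A z hA hz) ?_
  have h3 := hA.continuousAt
  unfold ContinuousAt at h3
  rw [hz] at h3
  exact h3.eventually he

theorem AAE_of_LD {F : X → E n} {x : X} (h : LD n F x) : AAE n F x := by
  intro A z hA hz
  exact AAn_of_LD (LD.comp_fun (by rw [hz]; exact h) hA)

theorem AAM.of {f : X → Y} {x : X} (hf : ContinuousAt f x) {B : Y → E n} (hB : LD n B (f x))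
    (h : AAE n (fun w => B (f w)) x) : AAM n f x := by
  intro B' hB' A z hA hz
  obtain ⟨β, hβ1, hβ2, hβ3, hβ4⟩ := hB.exists_inverse
  have hfA : ContinuousAt (fun y => f (A y)) z := by
    refine ContinuousAt.comp (g := f) ?_ hA.continuousAt
    rw [hz]
    exact hf
  have h1 := h A z hA hz
  have hc : ContinuousAt (fun y => B (f (A y))) z := by
    refine ContinuousAt.comp (g := B) ?_ hfA
    rw [hz]
    exact hB.continuousAt
  have hH : LD n (fun v => B' (β v)) (B (f (A z))) := by
    rw [hz]
    exact LD.comp_fun (by rw [hβ2]; exact hB') hβ1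
  refine AAn.congr (AAn.post (H := fun v => B' (β v)) h1 hc hH) ?_
  have h2 : ∀ᶠ y in 𝓝 z, β (B (f (A y))) = f (A y) := by
    have h3 : Tendsto (fun y => f (A y)) (𝓝 z) (𝓝 (f x)) := by
      have h4 : Tendsto (fun y => f (A y)) (𝓝 z) (𝓝 (f (A z))) := hfA
      rwa [hz] at h4
    exact h3.eventually hβ3
  filter_upwards [h2] with y hy
  simp only [hy]

theorem AAM.congr {f f' : X → Y} {x : X} (h : AAM n f x) (he : f' =ᶠ[𝓝 x] f) :
    AAM n f' x := by
  intro B hB
  rw [he.self_of_nhds] at hB
  refine AAE.congr (h B hB) ?_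
  filter_upwards [he] with y hy
  simp only [hy]

theorem AAM_of_LD {f : X → Y} {x : X} (h : LD n f x) : AAM n f x :=
  fun _ hB => AAE_of_LD (LD.comp_fun hB h)

/-- one smoothing step in one box -/
theorem phase1 (n : ℕ) (X : Type) [TopologicalSpace X] [T2Space X] [ChartedSpace (E n) X]
    (F : X → E n) (W : Set X) (A : E n → X)
    (hW : IsOpen W) (hF : ContinuousOn F W) (hFi : InjOn F W) (hx : ∀ x ∈ W, AAE n F x)
    (hAi : InjOn A (closedBall 0 2)) (hAd : ∀ z ∈ closedBall (0 : E n) 2, LD n A z)
    (hAW : ∀ z ∈ closedBall (0 : E n) 2, A z ∈ W) (e : ℝ) (he : 0 < e) :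
    ∃ F' : X → E n, ContinuousOn F' W ∧ (∀ p, p ∉ A '' closedBall 0 1 → F' p = F p) ∧
      (∀ p, ‖F' p - F p‖ ≤ e) ∧ (∀ x, LD n F x → LD n F' x) ∧
      (∀ z, ‖z‖ ≤ 1 / 2 → LD n F' (A z)) ∧ (∀ x ∈ W, AAE n F' x) ∧
      InjOn F' (A '' closedBall 0 (3 / 2)) := by
  obtain ⟨G, hGd⟩ : ∃ G : E n → E n, G = fun z => F (A z) := ⟨_, rfl⟩
  have hG : ContinuousOn G (closedBall 0 2) := by
    intro z hz
    rw [hGd]
    exact ((hF.continuousAt (hW.mem_nhds (hAW z hz))).comp
      (hAd z hz).continuousAt).continuousWithinAt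
  have hGi : InjOn G (closedBall 0 2) := by
    intro z hz w hw hzw
    rw [hGd] at hzw
    exact hAi hz hw (hFi (hAW z hz) (hAW w hw) hzw)
  have hGA : ∀ z ∈ closedBall (0 : E n) 2, AAn n G z := by
    intro z hz
    rw [hGd]
    exact hx (A z) (hAW z hz) A z (hAd z hz) rfl
  obtain ⟨c, hcs, hc0, hc4, hcz, hcp, hcl', hce, hci, hcLD⟩ := box G hG hGi hGA e he
  have hc1 : ∀ z, 1 < ‖z‖ → c z = 0 := fun z hz => hcz z hz.le
  obtain ⟨hS1, hS2, hS3, hS4⟩ := Pool.Agent.Y954.SH.mollS n G c hG hcs hc0 hc4 hc1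
  have hMF : ∀ z : E n, ‖z‖ ≤ 2 → MF A c F (A z) = Moll n G c z := by
    intro z hz
    rw [hGd]
    exact MF_of hAi hc1 hz
  have hcl : IsClosed (A '' closedBall (0 : E n) 1) := by
    apply IsCompact.isClosed
    apply (isCompact_closedBall (0 : E n) 1).image_of_continuousOn
    intro z hz
    exact (hAd z (closedBall_subset_closedBall (by norm_num) hz)).continuousAt.continuousWithinAt
  have hloc : ∀ z : E n, ‖z‖ ≤ 1 → ∃ p : X → E n, LD n p (A z) ∧ p (A z) = z ∧
      MF A c F =ᶠ[𝓝 (A z)] fun w => Moll n G c (p w) := by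
    intro z hz
    obtain ⟨p, hp1, hp2, hp3, hp4⟩ :=
      (hAd z (by rw [mem_closedBall_zero_iff]; linarith)).exists_inverse
    refine ⟨p, hp1, hp2, ?_⟩
    have h1 : ∀ᶠ w in 𝓝 (A z), ‖p w‖ < 2 := by
      refine hp1.continuousAt.norm.eventually (p := fun r : ℝ => r < 2) ?_
      change ∀ᶠ y in 𝓝 ‖p (A z)‖, y < 2
      rw [hp2]
      exact gt_mem_nhds (by linarith)
    filter_upwards [h1, hp4] with w hw1 hw2
    rw [← hMF (p w) hw1.le, hw2]
  have hoff : ∀ x, x ∉ A '' closedBall (0 : E n) 1 → MF A c F =ᶠ[𝓝 x] F := by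
    intro x hx
    filter_upwards [hcl.isOpen_compl.mem_nhds hx] with y hy
    exact MF_off hy
  have hLD : ∀ z : E n, ‖z‖ ≤ 1 → LD n (Moll n G c) z → LD n (MF A c F) (A z) := by
    intro z hz h
    obtain ⟨p, hp1, hp2, hp3⟩ := hloc z hz
    refine LD.congr ?_ hp3
    refine LD.comp_fun ?_ hp1
    rw [hp2]
    exact h
  refine ⟨MF A c F, ?_, ?_, ?_, ?_, ?_, ?_, ?_⟩
  · -- continuity
    intro x hxW
    refine ContinuousAt.continuousWithinAt ?_
    by_cases hx : x ∈ A '' closedBall (0 : E n) 1
    · obtain ⟨z, hz, rfl⟩ := hx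
      rw [mem_closedBall_zero_iff] at hz
      obtain ⟨p, hp1, hp2, hp3⟩ := hloc z hz
      rw [continuousAt_congr hp3]
      have h1 : ContinuousAt (Moll n G c) (p (A z)) := by
        rw [hp2]
        apply hS1.continuousAt
        refine mem_of_superset (ball_mem_nhds z (ε := 1 / 2) (by norm_num)) ?_
        intro y hy
        rw [mem_ball, dist_eq_norm] at hy
        rw [mem_closedBall_zero_iff]
        have h2 := norm_le_norm_add_norm_sub' y z
        linarith
      exact h1.comp hp1.continuousAt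
    · rw [continuousAt_congr (hoff x hx)]
      exact hF.continuousAt (hW.mem_nhds hxW)
  · intro p hp
    exact MF_off hp
  · intro x
    by_cases hx : x ∈ A '' closedBall (0 : E n) 1
    · obtain ⟨z, hz, rfl⟩ := hx
      rw [mem_closedBall_zero_iff] at hz
      rw [hMF z (by linarith)]
      have hFG : F (A z) = G z := by rw [hGd]
      rw [hFG]
      exact hce z (by linarith)
    · rw [MF_off hx, sub_self, norm_zero]
      exact he.le
  · intro x hx
    by_cases hxA : x ∈ A '' closedBall (0 : E n) 1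
    · obtain ⟨z, hz, rfl⟩ := hxA
      rw [mem_closedBall_zero_iff] at hz
      apply hLD z hz
      rcases (hc0 z).lt_or_eq with h | h
      · exact hcLD z h
      · have hGz : LD n G z := by
          rw [hGd]
          exact LD.comp_fun hx (hAd z (by rw [mem_closedBall_zero_iff]; linarith))
        have hev : ∀ᶠ y in 𝓝 z, ContDiffAt ℝ ∞ G y := by
          filter_upwards [hGz.eventually] with y hy
          exact hy.contDiffAt
        obtain ⟨h1, h2⟩ := hS4 z hz h.symm hev
        obtain ⟨e, he⟩ := hGz.exists_equiv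
        refine LD_of_contDiffAt ?_ e ?_
        · filter_upwards [eventually_eventually_nhds.2 hev] with y hy
          rcases (hc0 y).lt_or_eq with h3 | h3
          · exact hS3 y h3
          · rcases le_or_gt ‖y‖ 1 with h4 | h4
            · exact (hS4 y h4 h3.symm hy).1
            · refine hy.self_of_nhds.congr_of_eventuallyEq ?_
              have h5 : ∀ᶠ w in 𝓝 y, 1 < ‖w‖ := continuous_norm.continuousAt.eventually
                (lt_mem_nhds h4)
              filter_upwards [h5] with w hw
              exact hS2 w (hc1 w hw)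
        · rw [← he.fderiv, ← h2]
          exact (h1.differentiableAt (by simp)).hasFDerivAt
    · exact LD.congr hx (hoff x hxA)
  · intro z hz
    exact hLD z (by linarith) (hcLD z (hcp z (by linarith)))
  · intro x hxW
    by_cases hxA : x ∈ A '' closedBall (0 : E n) 1
    · obtain ⟨z, hz, rfl⟩ := hxA
      rw [mem_closedBall_zero_iff] at hz
      have hz2 : z ∈ closedBall (0 : E n) 2 := by
        rw [mem_closedBall_zero_iff]
        linarith
      refine AAE.of (hAd z hz2) ?_
      have h1 : AAn n (Moll n G c) z := by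
        rcases (hc0 z).lt_or_eq with h | h
        · exact AAn_of_LD (hcLD z h)
        · refine moll_AAn hc0 hcl' h.symm (ρ := 1) one_pos (hG.mono ?_) (hGA z hz2)
          intro y hy
          rw [mem_closedBall, dist_eq_norm] at hy
          rw [mem_closedBall_zero_iff]
          have h2 := norm_le_norm_add_norm_sub' y z
          linarith
      refine AAn.congr h1 ?_
      have h2 : ∀ᶠ y in 𝓝 z, ‖y‖ < 2 := continuous_norm.continuousAt.eventually
        (gt_mem_nhds (by linarith))
      filter_upwards [h2] with y hy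
      exact hMF y hy.le
    · exact AAE.congr (hx x hxW) (hoff x hxA)
  · rintro _ ⟨z, hz, rfl⟩ _ ⟨w, hw, rfl⟩ hzw
    have hz' := hz
    have hw' := hw
    rw [mem_closedBall_zero_iff] at hz' hw'
    rw [hMF z (by linarith), hMF w (by linarith)] at hzw
    rw [hci hz hw hzw]

end Pool.Agent.Q169.AA
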