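import Pool.Agent.Q169.AA.Core

/-!
# Asymptotically affine maps of `ℝ^n`
-/

set_option autoImplicit false

open Set Filter Topology Metric Function MeasureTheory
open scoped Manifold ContDiff

noncomputable section

namespace Pool.Agent.Q169.AA

open Pool.Agent.Y522 Pool.Agent.Y207.SH3

variable {n : ℕ}

theorem Aff.mono {G : E n → E n} {c ε ε' : ℝ} {p : E n} {s : ℝ} (h : Aff n G c ε p s)
    (hs : 0 ≤ s) (he : ε ≤ ε') : Aff n G c ε' p s := by
  obtain ⟨m, L, hm, h1, h2⟩ := h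
  refine ⟨m, L, hm, h1, fun q hq => (h2 q hq).trans ?_⟩
  gcongr

/-- the mollification is a local diffeomorphism where the scale is positive -/
theorem moll_LD {G : E n → E n} {δ : E n → ℝ} {p : E n} {m c κ : ℝ} {L : E n →L[ℝ] E n}
    (hm : 0 < m) (hκ0 : 0 ≤ κ) (hκ : κ < c) (hL : ∀ v, c * m * ‖v‖ ≤ ‖L v‖) (hp : 0 < δ p)
    (hs : ∀ᶠ y in 𝓝 p, ContDiffAt ℝ ∞ (Moll n G δ) y)
    (h : ∀ q, ‖q - p‖ ≤ δ p → ‖Moll n G δ q - Moll n G δ p - L (q - p)‖ ≤ κ * m * ‖q - p‖) :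
    LD n (Moll n G δ) p := by
  apply LD_of_pos hs
  intro u hu h0
  have hd : HasFDerivAt (Moll n G δ) (fderiv ℝ (Moll n G δ) p) p :=
    (hs.self_of_nhds.differentiableAt (by simp)).hasFDerivAt
  have h1 : HasFDerivAt (fun q => Moll n G δ q - L q) (fderiv ℝ (Moll n G δ) p - L) p :=
    hd.sub L.hasFDerivAt
  have h2 : ‖fderiv ℝ (Moll n G δ) p - L‖ ≤ κ * m := by
    refine h1.le_of_lip' (by positivity) ?_
    filter_upwards [closedBall_mem_nhds p hp] with q hq
    rw [mem_closedBall, dist_eq_norm] at hq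
    have h3 := h q hq
    have e : Moll n G δ q - L q - (Moll n G δ p - L p) =
        Moll n G δ q - Moll n G δ p - L (q - p) := by
      rw [map_sub]
      abel
    rw [e]
    exact h3
  have h4 : ‖(fderiv ℝ (Moll n G δ) p - L) u‖ ≤ κ * m * ‖u‖ :=
    (ContinuousLinearMap.le_opNorm _ u).trans (mul_le_mul_of_nonneg_right h2 (norm_nonneg _))
  rw [ContinuousLinearMap.sub_apply, h0, zero_sub, norm_neg] at h4
  have h5 := hL u
  rw [hu] at h4 h5
  have h6 : κ * m < c * m := mul_lt_mul_of_pos_right hκ hm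
  linarith

/-- increments of nearly affine maps do not vanish -/
theorem ne_of_aff {G : E n → E n} {m c κ s : ℝ} {L : E n →L[ℝ] E n} {p q : E n}
    (hm : 0 < m) (hκ : κ < c) (hL : ∀ v, c * m * ‖v‖ ≤ ‖L v‖) (hpq : 0 < ‖q - p‖)
    (hs : s = ‖q - p‖) (h : ‖G q - G p - L (q - p)‖ ≤ κ * m * s) : G q ≠ G p := by
  intro h0
  rw [h0, sub_self, zero_sub, norm_neg, hs] at h
  have h1 := hL (q - p)
  have h2 : κ * m * ‖q - p‖ < c * m * ‖q - p‖ := by
    have : κ * m < c * m := mul_lt_mul_of_pos_right hκ hm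
    exact mul_lt_mul_of_pos_right this hpq
  linarith

/-- bounds for an invertible linear map -/
theorem equiv_bounds (D : E n ≃L[ℝ] E n) : ∃ a b : ℝ, 0 < a ∧ a ≤ b ∧
    ∀ v, a * ‖v‖ ≤ ‖D v‖ ∧ ‖D v‖ ≤ b * ‖v‖ := by
  obtain ⟨b, hb⟩ : ∃ b : ℝ, b = ‖(D : E n →L[ℝ] E n)‖ + 1 := ⟨_, rfl⟩
  obtain ⟨a, ha⟩ : ∃ a : ℝ, a = (‖(D.symm : E n →L[ℝ] E n)‖ + 1)⁻¹ := ⟨_, rfl⟩
  have ha0 : 0 < ‖(D.symm : E n →L[ℝ] E n)‖ + 1 := by positivity
  have hap : 0 < a := by rw [ha]; positivity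
  have hb1 : 1 ≤ b := by
    rw [hb]
    linarith [norm_nonneg (D : E n →L[ℝ] E n)]
  refine ⟨a, b, hap, ?_, fun v => ⟨?_, ?_⟩⟩
  · have h1 : a ≤ 1 := by
      rw [ha]
      apply inv_le_one_of_one_le₀
      linarith [norm_nonneg (D.symm : E n →L[ℝ] E n)]
    linarith
  · have h1 : ‖v‖ ≤ (‖(D.symm : E n →L[ℝ] E n)‖ + 1) * ‖D v‖ := by
      have h2 := (D.symm : E n →L[ℝ] E n).le_opNorm (D v)
      have h3 : (D.symm : E n →L[ℝ] E n) (D v) = v := D.symm_apply_apply v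
      rw [h3] at h2
      nlinarith [norm_nonneg (D v)]
    rw [ha, inv_mul_le_iff₀ ha0]
    exact h1
  · have h2 := (D : E n →L[ℝ] E n).le_opNorm v
    have h3 : (D : E n →L[ℝ] E n) v = D v := rfl
    rw [h3] at h2
    rw [hb]
    nlinarith [norm_nonneg v]

theorem strict_of_LD {T : E n → E n} {z : E n} (hT : LD n T z) : ∃ D : E n ≃L[ℝ] E n,
    ∀ η : ℝ, 0 < η → ∃ r : ℝ, 0 < r ∧ ∀ p q : E n, ‖p - z‖ ≤ r → ‖q - z‖ ≤ r →
      ‖T q - T p - D (q - p)‖ ≤ η * ‖q - p‖ := by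
  obtain ⟨D, hD⟩ := hT.exists_equiv
  have hst : HasStrictFDerivAt T (D : E n →L[ℝ] E n) z :=
    hT.contDiffAt.hasStrictFDerivAt' hD (by simp)
  refine ⟨D, fun η hη => ?_⟩
  have h1 := hst.isLittleO.def hη
  rw [nhds_prod_eq] at h1
  obtain ⟨P1, hP1, P2, hP2, hP⟩ := eventually_prod_iff.1 h1
  obtain ⟨r, hr, h2⟩ := Metric.eventually_nhds_iff_ball.1 (hP1.and hP2)
  refine ⟨r / 2, by linarith, fun p q hp hq => ?_⟩
  refine hP (x := q) ?_ (y := p) ?_
  · exact (h2 q (by rw [mem_ball, dist_eq_norm]; linarith)).1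
  · exact (h2 p (by rw [mem_ball, dist_eq_norm]; linarith)).2

/-- local diffeomorphisms are asymptotically affine -/
theorem AAn_of_LD {T : E n → E n} {z : E n} (hT : LD n T z) : AAn n T z := by
  obtain ⟨D, hD⟩ := strict_of_LD hT
  obtain ⟨a, b, ha, hab, hv⟩ := equiv_bounds D
  have hb : 0 < b := lt_of_lt_of_le ha hab
  refine ⟨a / b, by positivity, fun ε hε => ?_⟩
  obtain ⟨r, hr, h⟩ := hD (ε * b) (by positivity)
  refine ⟨r / 2, by linarith, fun p hp s hs hsr => ⟨b, D, hb, fun v => ?_, fun q hq => ?_⟩⟩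
  · rw [div_mul_cancel₀ _ hb.ne']
    exact hv v
  · have h1 : ‖q - z‖ ≤ r := by
      have e : q - z = (q - p) + (p - z) := by abel
      rw [e]
      refine (norm_add_le _ _).trans ?_
      linarith
    refine (h p q (by linarith) h1).trans ?_
    gcongr

/-- invariance under changes of coordinates in the target -/
theorem AAn.post {G : E n → E n} {z : E n} (h : AAn n G z) (hc : ContinuousAt G z)
    {H : E n → E n} (hH : LD n H (G z)) : AAn n (fun y => H (G y)) z := by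
  obtain ⟨c, hc0, h⟩ := h
  obtain ⟨D, hD⟩ := strict_of_LD hH
  obtain ⟨a, b, ha, hab, hv⟩ := equiv_bounds D
  have hb : 0 < b := lt_of_lt_of_le ha hab
  refine ⟨c * a / b, by positivity, fun ε hε => ?_⟩
  obtain ⟨ε', hε', h1, h2⟩ : ∃ ε' : ℝ, 0 < ε' ∧ ε' ≤ 1 ∧ ε' ≤ ε / 3 :=
    ⟨min 1 (ε / 3), lt_min one_pos (by linarith), min_le_left _ _, min_le_right _ _⟩
  obtain ⟨r1, hr1, h3⟩ := h ε' hε'
  obtain ⟨r2, hr2, h4⟩ := hD (b * (ε / 3)) (by positivity)
  have h5 : ∀ᶠ y in 𝓝 z, ‖G y - G z‖ < r2 := by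
    have h6 := hc.eventually (ball_mem_nhds (G z) hr2)
    filter_upwards [h6] with y hy
    rwa [← dist_eq_norm]
  obtain ⟨r3, hr3, h6⟩ := Metric.eventually_nhds_iff_ball.1 h5
  refine ⟨min r1 (r3 / 4), lt_min hr1 (by linarith), fun p hp s hs hsr => ?_⟩
  have hp1 := hp.trans (min_le_left _ _)
  have hp3 := hp.trans (min_le_right _ _)
  have hs1 := hsr.trans (min_le_left _ _)
  have hs3 := hsr.trans (min_le_right _ _)
  obtain ⟨m, L, hm, hL, hA⟩ := h3 p hp1 s hs hs1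
  refine ⟨b * m, (D : E n →L[ℝ] E n).comp L, by positivity, fun v => ⟨?_, ?_⟩, fun q hq => ?_⟩
  · have e1 : c * a / b * (b * m) * ‖v‖ = a * (c * m * ‖v‖) := by
      field_simp
    rw [e1]
    exact (mul_le_mul_of_nonneg_left (hL v).1 ha.le).trans (hv (L v)).1
  · refine (hv (L v)).2.trans ?_
    rw [mul_assoc]
    exact mul_le_mul_of_nonneg_left (hL v).2 hb.le
  · have hG : ∀ y, ‖y - z‖ < r3 → ‖G y - G z‖ ≤ r2 := fun y hy =>
      (h6 y (by rwa [mem_ball, dist_eq_norm])).le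
    have hq1 : ‖q - z‖ < r3 := by
      have e : q - z = (q - p) + (p - z) := by abel
      rw [e]
      refine (norm_add_le _ _).trans_lt ?_
      linarith
    have h7 := h4 (G p) (G q) (hG p (by linarith)) (hG q hq1)
    have h8 := hA q hq
    have h9 : ‖G q - G p‖ ≤ 2 * m * s := by
      have e : G q - G p = (G q - G p - L (q - p)) + L (q - p) := by abel
      rw [e]
      refine (norm_add_le _ _).trans ?_
      have h10 := (hL (q - p)).2
      have h11 : m * ‖q - p‖ ≤ m * s := mul_le_mul_of_nonneg_left hq hm.le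
      have h12 : ε' * m * s ≤ 1 * m * s := by gcongr
      linarith
    have e : H (G q) - H (G p) - (D : E n →L[ℝ] E n).comp L (q - p) =
        (H (G q) - H (G p) - D (G q - G p)) + D (G q - G p - L (q - p)) := by
      rw [map_sub D (G q - G p) (L (q - p))]
      change H (G q) - H (G p) - D (L (q - p)) = _
      abel
    rw [e]
    refine (norm_add_le _ _).trans ?_
    have h13 := (hv (G q - G p - L (q - p))).2
    have h14 : b * ‖G q - G p - L (q - p)‖ ≤ b * (ε' * m * s) :=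
      mul_le_mul_of_nonneg_left h8 hb.le
    have h15 : b * (ε / 3) * ‖G q - G p‖ ≤ b * (ε / 3) * (2 * m * s) :=
      mul_le_mul_of_nonneg_left h9 (by positivity)
    have h16 : b * (ε' * m * s) ≤ b * (ε / 3 * m * s) := by gcongr
    have e2 : ε * (b * m) * s = b * (ε / 3) * (2 * m * s) + b * (ε / 3 * m * s) := by ring
    rw [e2]
    linarith

/-- invariance under changes of coordinates in the source -/
theorem AAn.pre {G : E n → E n} {T : E n → E n} {z : E n} (h : AAn n G (T z)) (hT : LD n T z) :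
    AAn n (fun y => G (T y)) z := by
  obtain ⟨c, hc0, h⟩ := h
  obtain ⟨D, hD⟩ := strict_of_LD hT
  obtain ⟨a, b, ha, hab, hv⟩ := equiv_bounds D
  have hb : 0 < b := lt_of_lt_of_le ha hab
  refine ⟨c * a / b, by positivity, fun ε hε => ?_⟩
  obtain ⟨ε', hε', h1⟩ : ∃ ε' : ℝ, 0 < ε' ∧ ε' * (b + 1) ≤ ε * b / 2 :=
    ⟨ε * b / 2 / (b + 1), by positivity, by rw [div_mul_cancel₀ _ (by positivity)]⟩
  obtain ⟨η, hη, hη1, hη2⟩ : ∃ η : ℝ, 0 < η ∧ η ≤ 1 ∧ η ≤ ε * b / 2 :=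
    ⟨min 1 (ε * b / 2), lt_min one_pos (by positivity), min_le_left _ _, min_le_right _ _⟩
  obtain ⟨r1, hr1, h3⟩ := h ε' hε'
  obtain ⟨r2, hr2, h4⟩ := hD η hη
  obtain ⟨r, hr, hra, hrb⟩ : ∃ r : ℝ, 0 < r ∧ (b + 1) * r ≤ r1 ∧ 2 * r ≤ r2 := by
    refine ⟨min (r1 / (b + 1)) (r2 / 2), lt_min (by positivity) (by linarith), ?_, ?_⟩
    · calc (b + 1) * min (r1 / (b + 1)) (r2 / 2) ≤ (b + 1) * (r1 / (b + 1)) := by
            gcongr
            exact min_le_left _ _
        _ = r1 := by field_simp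
    · have := min_le_right (r1 / (b + 1)) (r2 / 2)
      linarith
  refine ⟨r, hr, fun p hp s hs hsr => ?_⟩
  have hTb : ∀ y y' : E n, ‖y - z‖ ≤ 2 * r → ‖y' - z‖ ≤ 2 * r → ‖T y' - T y‖ ≤ (b + 1) * ‖y' - y‖ := by
    intro y y' hy hy'
    have h5 := h4 y y' (hy.trans hrb) (hy'.trans hrb)
    have e : T y' - T y = (T y' - T y - D (y' - y)) + D (y' - y) := by abel
    rw [e]
    refine (norm_add_le _ _).trans ?_
    have h6 := (hv (y' - y)).2
    have h7 : η * ‖y' - y‖ ≤ 1 * ‖y' - y‖ := mul_le_mul_of_nonneg_right hη1 (norm_nonneg _)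
    linarith
  have hTp : ‖T p - T z‖ ≤ r1 := by
    refine (hTb z p (by rw [sub_self, norm_zero]; linarith) (by linarith)).trans ?_
    refine (mul_le_mul_of_nonneg_left hp (by positivity)).trans hra
  obtain ⟨m, L, hm, hL, hA⟩ := h3 (T p) hTp ((b + 1) * s) (by positivity)
    ((mul_le_mul_of_nonneg_left hsr (by positivity)).trans hra)
  refine ⟨b * m, L.comp (D : E n →L[ℝ] E n), by positivity, fun v => ⟨?_, ?_⟩, fun q hq => ?_⟩
  · have e1 : c * a / b * (b * m) * ‖v‖ = c * m * (a * ‖v‖) := by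
      field_simp
    rw [e1]
    exact (mul_le_mul_of_nonneg_left (hv v).1 (by positivity)).trans (hL (D v)).1
  · refine (hL (D v)).2.trans ?_
    have e1 : b * m * ‖v‖ = m * (b * ‖v‖) := by ring
    rw [e1]
    exact mul_le_mul_of_nonneg_left (hv v).2 hm.le
  · have hq1 : ‖q - z‖ ≤ 2 * r := by
      have e : q - z = (q - p) + (p - z) := by abel
      rw [e]
      refine (norm_add_le _ _).trans ?_
      linarith
    have hp1 : ‖p - z‖ ≤ 2 * r := by linarith
    have h5 : ‖T q - T p‖ ≤ (b + 1) * s :=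
      (hTb p q hp1 hq1).trans (mul_le_mul_of_nonneg_left hq (by positivity))
    have h6 := hA (T q) h5
    have h7 := h4 p q (hp1.trans hrb) (hq1.trans hrb)
    have e : G (T q) - G (T p) - L.comp (D : E n →L[ℝ] E n) (q - p) =
        (G (T q) - G (T p) - L (T q - T p)) + L (T q - T p - D (q - p)) := by
      rw [map_sub L (T q - T p) (D (q - p))]
      change G (T q) - G (T p) - L (D (q - p)) = _
      abel
    rw [e]
    refine (norm_add_le _ _).trans ?_
    have h8 := (hL (T q - T p - D (q - p))).2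
    have h9 : m * ‖T q - T p - D (q - p)‖ ≤ m * (ε * b / 2 * s) := by
      apply mul_le_mul_of_nonneg_left _ hm.le
      refine h7.trans ?_
      exact mul_le_mul hη2 hq (norm_nonneg _) (by positivity)
    have h10 : ε' * m * ((b + 1) * s) ≤ ε * b / 2 * (m * s) := by
      have e3 : ε' * m * ((b + 1) * s) = ε' * (b + 1) * (m * s) := by ring
      rw [e3]
      exact mul_le_mul_of_nonneg_right h1 (by positivity)
    have e2 : ε * (b * m) * s = ε * b / 2 * (m * s) + m * (ε * b / 2 * s) := by ring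
    rw [e2]
    linarith

theorem AAn.congr {G G' : E n → E n} {z : E n} (h : AAn n G z) (he : G' =ᶠ[𝓝 z] G) :
    AAn n G' z := by
  obtain ⟨c, hc, h⟩ := h
  obtain ⟨r1, hr1, h1⟩ := Metric.eventually_nhds_iff_ball.1 he
  refine ⟨c, hc, fun ε hε => ?_⟩
  obtain ⟨r, hr, h2⟩ := h ε hε
  refine ⟨min r (r1 / 4), lt_min hr (by linarith), fun p hp s hs hsr => ?_⟩
  have hp3 := hp.trans (min_le_right _ _)
  have hs3 := hsr.trans (min_le_right _ _)
  obtain ⟨m, L, hm, hL, hA⟩ := h2 p (hp.trans (min_le_left _ _)) s hs (hsr.trans (min_le_left _ _))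
  refine ⟨m, L, hm, hL, fun q hq => ?_⟩
  have hq1 : ‖q - z‖ < r1 := by
    have e : q - z = (q - p) + (p - z) := by abel
    rw [e]
    refine (norm_add_le _ _).trans_lt ?_
    linarith
  rw [h1 q (by rwa [mem_ball, dist_eq_norm]), h1 p (by rw [mem_ball, dist_eq_norm]; linarith)]
  exact hA q hq

/-- the mollification is asymptotically affine where the scale vanishes -/
theorem moll_AAn {G : E n → E n} {δ : E n → ℝ} {z : E n} (hδ0 : ∀ z, 0 ≤ δ z)
    (hδl : ∀ y z, |δ y - δ z| ≤ ‖y - z‖ / 4) (hz : δ z = 0) {ρ : ℝ} (hρ : 0 < ρ)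
    (hG : ContinuousOn G (closedBall z ρ)) (h : AAn n G z) : AAn n (Moll n G δ) z := by
  obtain ⟨C, hC, hM⟩ := moll_aff n
  obtain ⟨c, hc, h⟩ := h
  refine ⟨c, hc, fun ε hε => ?_⟩
  obtain ⟨r, hr, h1⟩ := h (ε / C) (by positivity)
  refine ⟨min (r / 4) (ρ / 5), lt_min (by linarith) (by linarith), fun p hp s hs hsr => ?_⟩
  have hp1 := hp.trans (min_le_left _ _)
  have hp2 := hp.trans (min_le_right _ _)
  have hs1 := hsr.trans (min_le_left _ _)
  have hs2 := hsr.trans (min_le_right _ _)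
  have hδp : δ p ≤ ‖p - z‖ / 4 := by
    have h2 := (abs_le.1 (hδl p z)).2
    rw [hz] at h2
    linarith
  obtain ⟨t, ht, hst, hpt, htr, htρ, htc⟩ : ∃ t : ℝ, 0 < t ∧ s ≤ t ∧ δ p ≤ t ∧ 4 * t ≤ r ∧
      4 * t ≤ 4 * (ρ / 5) ∧ (s = t ∨ δ p = t) := by
    rcases le_total s (δ p) with h2 | h2
    · exact ⟨δ p, lt_of_lt_of_le hs h2, h2, le_rfl, by linarith, by linarith, Or.inr rfl⟩
    · exact ⟨s, hs, le_rfl, h2, by linarith, by linarith, Or.inl rfl⟩
  obtain ⟨m, L, hm, hL, hA⟩ := h1 p (by linarith) (4 * t) (by linarith) htr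
  have hsub : closedBall p (4 * t) ⊆ closedBall z ρ := by
    intro y hy
    rw [mem_closedBall, dist_eq_norm] at hy ⊢
    have e : y - z = (y - p) + (p - z) := by abel
    rw [e]
    refine (norm_add_le _ _).trans ?_
    linarith
  obtain ⟨g1, g2⟩ := hM G δ p t m (ε / C) L hm (by positivity) ht hδ0 hδl hpt (hG.mono hsub) hA
  have eC : C * (ε / C) = ε := by field_simp
  rw [eC] at g1 g2
  refine ⟨m, L, hm, hL, fun q hq => ?_⟩
  rcases htc with h2 | h2
  · rw [h2]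
    exact g1 q (by linarith)
  · refine (g2 h2 q (by linarith)).trans ?_
    gcongr

end Pool.Agent.Q169.AA
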